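import Pool.Agent.Lib.MP_2e793b_nt.Close

/-!
# MP_2e793b_nt: the digits of a quadratic irrational number are not generated by a morphism of
at most quadratic growth
-/

set_option autoImplicit false

namespace Pool.Agent.Results.MP_2e793b_nt.QuadraticGrowth

/-- Let `b ≥ 2` and let `ξ` be an irrational root of a quadratic polynomial with integer
coefficients.  Then there are no finite alphabet `Fin k`, morphism `σ`, letter `a` and
letter-to-letter map `τ` such that the words `σ^n(a)` are prefixes of an infinite word `u`, their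
lengths are unbounded but at most `K (n + 1)^2` for some `K` and all `n`, and `τ(u)` is the word of
the base-`b` digits of `ξ` after the point. -/
theorem result (b : ℕ) (hb : 2 ≤ b) (ξ : ℝ) (hξ : Irrational ξ)
    (hquad : ∃ α β γ : ℤ, α ≠ 0 ∧ α * ξ ^ 2 + β * ξ + γ = 0) :
    ¬ ∃ (k : ℕ) (σ : Fin k → List (Fin k)) (a : Fin k) (u : ℕ → Fin k) (τ : Fin k → ℤ),
      (∀ (n i : ℕ) (x : Fin k),
          ((fun l : List (Fin k) => l.flatMap σ)^[n] [a])[i]? = some x → u i = x) ∧
      (∀ m : ℕ, ∃ n : ℕ, m < ((fun l : List (Fin k) => l.flatMap σ)^[n] [a]).length) ∧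
      (∃ K : ℕ, ∀ n : ℕ,
        ((fun l : List (Fin k) => l.flatMap σ)^[n] [a]).length ≤ K * (n + 1) ^ 2) ∧
      ∀ n : ℕ, τ (u n) = ⌊ξ * (b : ℝ) ^ (n + 1)⌋ % (b : ℤ) :=
  Pool.Agent.Lib.MP_2e793b_nt.close b ξ hb hξ hquad

end Pool.Agent.Results.MP_2e793b_nt.QuadraticGrowth
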